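import Pool.Agent.RS.Circuit
import Pool.Agent.MQX.Main

/-!
# Majority against AC0[p] circuits with few special gates, which are built from unbounded ANDs of
clauses that read AC0[p] circuits and linear sums modulo an arbitrary modulus, and of unboundedly
many functions of quadratic sums and equations of bounded degree modulo the same modulus
-/

set_option autoImplicit false

namespace Pool.Agent.Results.MP_3586ff_lc.QuadraticClauses

open Pool.Agent.RS

/-- The number of ones of `x`. -/
def ones {n : ℕ} (x : Fin n → Bool) : ℕ := (Finset.univ.filter fun v => x v = true).card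

/-- `Q` is an `AND` of `N` clauses. The clause `i` is an arbitrary function `F i` of the outputs of
`w` circuits of depth at most `d` with `s` gates (`AND`, `OR`, `NOR` and general `MOD_p` gates of
unbounded fan-in) and of `w` linear sums modulo `m` of the variables. -/
def MixedAnd (p m w d n s N : ℕ) (Q : (Fin n → Bool) → Bool) : Prop :=
  ∃ (C : Fin N → Fin w → Circuit (Fin n) s) (c : Fin N → Fin w → Fin n → ZMod m)
    (F : Fin N → (Fin w → Prop) → (Fin w → ZMod m) → Prop),
    (∀ i a, (C i a).level (C i a).out + 1 ≤ d) ∧
    ∀ x, Q x = true ↔ ∀ i, F i (fun a => (C i a).Accepts p x)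
      (fun a => ∑ v, if x v = true then c i a v else 0)

/-- `g` is an arbitrary function of `w` quadratic sums `∑ i, ∑ j, c i j * x i * x j` modulo `m`
(the terms with `i = j` are linear). -/
def QuadraticClause (m w n : ℕ) (g : (Fin n → Bool) → Bool) : Prop :=
  ∃ (c : Fin w → Fin n → Fin n → ZMod m) (A : (Fin w → ZMod m) → Bool),
    ∀ x, g x = A fun s => ∑ i, ∑ j, if x i = true ∧ x j = true then c s i j else 0

/-- `g` tests whether a polynomial of degree at most `D` in the variables vanishes modulo `m`. -/
def Equation (m D n : ℕ) (g : (Fin n → Bool) → Bool) : Prop :=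
  ∃ c : Finset (Fin n) → ZMod m,
    ∀ x, g x = true ↔ (∑ S, if S.card ≤ D ∧ ∀ i ∈ S, x i = true then c S else 0) = 0

/-- `P` is an `AND` of any number of quadratic clauses and equations. -/
def AndOfTests (m w D n : ℕ) (P : (Fin n → Bool) → Bool) : Prop :=
  ∃ 𝒞 : Set ((Fin n → Bool) → Bool), (∀ g ∈ 𝒞, QuadraticClause m w n g ∨ Equation m D n g) ∧
    ∀ x, P x = true ↔ ∀ g ∈ 𝒞, g x = true

/-- `Q` is the conjunction of an `AND` of `s` clauses `MixedAnd`, of an `AND` of any number of
quadratic clauses and equations, and of the negation of such an `AND` of any number of quadratic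
clauses and equations. -/
def Piece (p m w D d n s : ℕ) (Q : (Fin n → Bool) → Bool) : Prop :=
  ∃ M₀ R R' : (Fin n → Bool) → Bool, MixedAnd p m w d n s s M₀ ∧ AndOfTests m w D n R ∧
    AndOfTests m w D n R' ∧ ∀ x, Q x = true ↔ M₀ x = true ∧ R x = true ∧ R' x = false

/-- `Q` and its negation are both an `OR` of `s` pieces. For example, `Q` may be an `AND`, or the
negation of an `AND`, of `s - 1` mixed clauses and of any number of quadratic clauses and
equations. -/
def TwoSided (p m w D d n s : ℕ) (Q : (Fin n → Bool) → Bool) : Prop :=
  ∀ v : Bool, ∃ A : Fin s → (Fin n → Bool) → Bool, (∀ e, Piece p m w D d n s (A e)) ∧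
    ∀ x, Q x = v ↔ ∃ e, A e x = true

/-- The gates `P j` are nested: on the points `x` at which the gates `P i` of smaller level have
given values `b i`, the gate `P j` is a function `TwoSided`, which may depend on `b`. -/
def Nested (p m w D d n s k : ℕ) (lev : Fin k → ℕ) (P : Fin k → (Fin n → Bool) → Bool) : Prop :=
  ∀ (j : Fin k) (b : Fin k → Bool), ∃ Q, TwoSided p m w D d n s Q ∧
    ∀ x, (∀ i, lev i < lev j → P i x = b i) → P j x = Q x

/-- Let `p` be a prime, `m ≥ 2` an arbitrary modulus, and let `w`, the degree `D` and the depth `d`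
be given. There is a constant `K` such that the following holds. Consider the `OR` of `t` functions
of `n` variables, the `i`-th of which is computed as follows. There are `k` special gates `P i j`,
which may be nested. According to the vector `b` of the values of these gates at `x`, one evaluates
a circuit `C i b` of depth `d` with `s` gates `AND`, `OR`, `NOR` and (general) `MOD_p` of unbounded
fan-in. Suppose that the `OR` rejects all `x` with fewer than `n / 2` ones, and accepts at least
the fraction `1 / r` of the `x` with exactly `⌈n / 2⌉` ones (for the majority function, `r = 1`).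
Then `n ≤ (K * (k + 1) * log (s + t + r + n)) ^ K`. -/
theorem result (p m w D d : ℕ) (hp : p.Prime) (hm : 2 ≤ m) :
    ∃ K : ℕ, ∀ (n k s t r : ℕ) (lev : Fin t → Fin k → ℕ)
      (P : Fin t → Fin k → (Fin n → Bool) → Bool)
      (C : Fin t → (Fin k → Bool) → Circuit (Fin n) s) (A : Finset (Fin n → Bool)),
      (∀ i, Nested p m w D d n s k (lev i) (P i)) →
      (∀ i b, (C i b).level (C i b).out + 1 ≤ d) →
      (∀ i x, (C i fun j => P i j x).Accepts p x → n ≤ 2 * ones x) →
      (∀ x ∈ A, ones x = (n + 1) / 2 ∧ ∃ i, (C i fun j => P i j x).Accepts p x) →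
      n.choose ((n + 1) / 2) ≤ r * A.card →
      (n : ℝ) ≤ (K * (k + 1) * Real.log (s + t + r + n)) ^ K := by
  have : Fact p.Prime := ⟨hp⟩
  exact Pool.Agent.MQX.mqx_main p m w D d hm

end Pool.Agent.Results.MP_3586ff_lc.QuadraticClauses
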