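import Pool.Agent.RIG.AllP
import Pool.Agent.SPN.Cor7
import Pool.Agent.SPN.Dis7
import Pool.Agent.SPN.Fin7
import Pool.Agent.SPN.Loc7
import Pool.Agent.SPN.Spr7
import Pool.Agent.SPN.Wgt6
import Pool.Agent.SPR.Pac5
import Pool.Agent.SPR.Sam
import Pool.Agent.SPR.Sau

/-!
# Few gates modulo `m` of a constant depth circuit for majority distinguish many variables:
arbitrarily nested gates modulo `m`, together with symmetric gates of small fan-in
-/

set_option autoImplicit false

namespace Pool.Agent.Results.MP_3586ff_lc.ShatteredNestedGates

open Finset Pool.Agent.RIG Pool.Agent.SPN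

/-- For every prime `p` and all `d` there is a constant `K` such that the following holds for every
circuit `C` of depth at most `d` with `s` gates which computes the majority of `n ≥ 1` variables.
Its gates are `AND`, `OR` and `NOR` gates and gates that apply an arbitrary function to the number
of true inputs modulo `p`, all of unbounded fan-in; gates modulo `m`, that is, gates that apply an
arbitrary function to the number of true inputs modulo `m`, where `m ≥ 2` is an arbitrary integer
(`C.Special p g m`); and arbitrary symmetric gates, for example `MAJORITY` gates (modulus `0`), which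
read no variables directly (only gates) and have at most `q g` wires. Let
`Y = (K * m * log (s + n)) ^ K`. The coefficient vector of a gate consists of the numbers of wires
from the variables to the gate, modulo `m`.

Suppose that the coefficient vector of every gate `g` modulo `m` is the sum of a vector which is on
each of the `N` classes `κ v = j` of variables a combination of the `r` vectors `R i`, of a vector
with at most `f` entries that are not zero, and of the vector `h g` (`DecompM`); and that a gate `g`
modulo `m` reads at most `q g` gates (`Reads`). The gates may be nested in every way.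

(1) Let `L, e, z` be natural numbers with `f ≤ L * e`, `1 ≤ L`, `1 ≤ z`, `log_2 s ≤ z`,
`L * z ≤ n`, and let `F C.out` bound the product of the numbers `8 * m * (q g + e + z) + 1` over
the gates modulo `m` and the symmetric gates on any path to the output. Then
`n ≤ L * (r + 1) * Y * F C.out`, or for some `T ≤ Y * n / (L * z)` gates `g i` modulo `m` the pairs
`(κ v, (h (g i) v)_i)`, `v` a variable, take at least `n / ((r + 1) * Y)` different values.

(2) Let `F C.out` bound the product of the numbers `q g + 1` over the gates modulo `m` and the
symmetric gates on any path to the output. If no `D + 1` of the gates modulo `m` are shattered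
through `h`, or if for some points `x v`, `y g` of the space of dimension `D` the entry `h g v` is
`1` or `0` according to whether the scalar product of `x v` and `y g` is at least `0`, then
`n ≤ (r + 1) * Y * F C.out * (f + N * ((r + 1) * Y * F C.out) ^ D)`. -/
theorem result (p d : ℕ) (hp : p.Prime) : ∃ K : ℕ,
    ∀ (n s m r f N : ℕ) (C : Circuit n s) (κ : Fin n → Fin N) (R : Fin r → Fin n → ZMod m)
      (h : Fin s → Fin n → ZMod m) (q : Fin s → ℕ), 2 ≤ m → 1 ≤ n → C.level C.out + 1 ≤ d →
      C.Majority → DecompM p C m f κ R h → Reads p C m q →
      (∀ (F : Fin s → ℕ) (z L e : ℕ), C.PathBound p (fun g => 8 * m * (q g + e + z)) F →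
        1 ≤ z → 1 ≤ L → L * z ≤ n → f ≤ L * e → Real.logb 2 s ≤ z →
        (n : ℝ) ≤ L * ((r + 1) * (K * m * Real.log (s + n)) ^ K * F C.out) ∨
        ∃ (T : ℕ) (g : Fin T → Fin s), (T : ℝ) ≤ (K * m * Real.log (s + n)) ^ K * n / (L * z) ∧
          (∀ i, C.Special p (g i) m) ∧
          (n : ℝ) ≤ (r + 1) * (K * m * Real.log (s + n)) ^ K *
            (open scoped Classical in
              ((univ : Finset (Fin n)).image fun v => (κ v, fun i : Fin T => h (g i) v)).card)) ∧
      ∀ (F : Fin s → ℕ) (D : ℕ), C.PathBound p q F →
        (¬ ShatteredM p C m h (D + 1) ∨ ∃ (x : Fin n → Fin D → ℝ) (y : Fin s → Fin D → ℝ),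
          ∀ g v, C.Special p g m → h g v = if 0 ≤ ∑ j, y g j * x v j then 1 else 0) →
        (n : ℝ) ≤ (r + 1) * (K * m * Real.log (s + n)) ^ K * F C.out *
          (f + N * ((r + 1) * (K * m * Real.log (s + n)) ^ K * F C.out) ^ D) :=
  have hD : St_Dis7 := thm_Dis7 (thm_Spr7 (thm_Loc7 all_BlkP) thm_Wgt6) Pool.Agent.SPR.thm_Pac5
    Pool.Agent.SPR.thm_Sam
  fin7_all hD (thm_Cor7 hD Pool.Agent.SPR.thm_Sau) p d hp

end Pool.Agent.Results.MP_3586ff_lc.ShatteredNestedGates
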