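import Pool.Agent.FTR.Defs
import Pool.Agent.FTR.All

/-!
# The trade-off between size, reuse and feedback above arbitrarily many MOD_m gates
-/

set_option autoImplicit false

namespace Pool.Agent.Results.MP_3586ff_lc.SizeReuseTradeoff

open Pool.Agent.FTR

/-- Let `m ≥ 2` be an arbitrary modulus and let `w`, `D`, `c`, `d` and `r` be given. There is a
constant `K` such that the following holds for all `b ≥ K`. Let `C` be an arbitrary acyclic circuit
of `S` gates on Boolean matrices `x` with `a` rows and `b` columns: `AND`, `OR` and `NOR` gates of
unbounded fan-in, symmetric gates (for example majorities), and tests, that is, arbitrary functions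
of `w` polynomials of degree at most `D` modulo `m` (for example `MOD_m` gates). There is no bound
on `S`. Suppose that `H` is a set of at most `s` gates that contains all symmetric gates and no
test; that there are at most `b ^ c` other gates `AND`, `OR` and `NOR`, in paths of at most `d`
gates; that `M` is a set of at most `k` gates that contains all tests and all gates in `H` which are
read by a gate outside of `H` or by a symmetric gate; and that paths in `H`, the gates of which are
outside of `M` after the first one, contain, after the first one, at most `r` gates that are read by
two gates. The depth of `H` is not bounded, and neither is the number of the tests.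

If `C` correctly decides whether an odd number of rows of `x` have at least half of their entries
true, for at least the fraction `(1 + 2 ^ (-L)) / 2` of all `2 ^ (a * b)` matrices `x`, then
`(a / b) ^ (2 ^ (r + 1)) ≤
  (K * log (s + a + b + 2)) ^ K * (s + k + L + 1) ^ (2 ^ (r + 1) - 1) * (k + L + 1)`. -/
theorem result (m w D c d r : ℕ) (hm : 2 ≤ m) :
    ∃ K : ℕ, ∀ a b s k L S : ℕ, K ≤ b →
      ∀ (C : Circ m w D (Fin a × Fin b) S) (H M : Finset (Fin S)),
        C.Bounded H M (b ^ c) d s k r →
        (1 + (1 / 2 : ℝ) ^ L) / 2 * 2 ^ (a * b) ≤
          Nat.card {x : Fin a × Fin b → Bool // C.Accepts x ↔ OddMaj x} →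
        ((a : ℝ) / b) ^ 2 ^ (r + 1) ≤
          (K * Real.log (s + a + b + 2)) ^ K * (s + k + L + 1) ^ (2 ^ (r + 1) - 1) *
            (k + L + 1) :=
  all_main m w D c d r hm

end Pool.Agent.Results.MP_3586ff_lc.SizeReuseTradeoff
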