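import Pool.Agent.SymSub.Defs
import Pool.Agent.SymSub.Blk

/-!
# The cost of symmetry for circuits with gates modulo an arbitrary integer
-/

set_option autoImplicit false

namespace Pool.Agent.Results.MP_3586ff_lc.SymmetricCircuits

open Pool.Agent.SymCirc

/-- `F` is free on `A`: every circuit of depth `d` with `s` gates that computes `F` can be replaced
by one of depth at most `max d 5 + 2` with at most `s * (a + k).choose k ^ K` gates, for which all
`a!` permutations of the set `A` of `a` variables are symmetries. -/
def Free {n : ℕ} (m T k K : ℕ) (F : ℕ → Prop) (A : Finset (Fin n)) : Prop :=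
  ∀ (d : ℕ) (ι G : Type) [Fintype ι] [Fintype G] (C : Circuit n ι G) (g₀ : G),
    C.Modular m T → C.Computes g₀ F → (∀ g, C.level g < d) →
    ∃ (ι' G' : Type) (_ : Fintype ι') (_ : Fintype G') (C' : Circuit n ι' G') (g₀' : G'),
      C'.Modular m T ∧ (∀ g, C'.level g < max d 5 + 2) ∧
      Fintype.card G' ≤ Fintype.card G * (A.card + k).choose k ^ K ∧ C'.Computes g₀' F ∧
      ∀ ρ : Equiv.Perm (Fin n), (∀ i, i ∉ A → ρ i = i) →
        ∃ σ τ, C'.IsAut ρ σ τ ∧ τ g₀' = g₀'

/-- `F` is rigid on `A`: for every circuit with `s` gates that computes `F`, of arbitrary depth, at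
most `s * a! / a.choose k` of the `a!` permutations of the set `A` of `a` variables are
symmetries. -/
def Rigid {n : ℕ} (m T k : ℕ) (F : ℕ → Prop) (A : Finset (Fin n)) : Prop :=
  ∀ (ι G : Type) [Fintype ι] [Fintype G] (C : Circuit n ι G) (g₀ : G),
    C.Modular m T → C.Computes g₀ F →
    A.card.choose k *
        Nat.card {ρ : Equiv.Perm (Fin n) // (∀ i, i ∉ A → ρ i = i) ∧ C.IsSymmetry ρ} ≤
      Fintype.card G * A.card.factorial

/-- Let `m ≥ 2` be an arbitrary modulus with `r` prime divisors. There is a constant `K` such that
the following holds for circuits in `n` variables, of arbitrary depth, each gate of which computes a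
function of `c mod m`, `min c T` and `min (f - c) T`, where `c` of the `f` wires entering it carry
true, and for functions given by a property `F` of the number of ones.

Every property is free on every set `A` of at most `k ^ r` variables; majority is rigid on every
set `A` of at least `K * (k ^ r + T)` variables.

A property is regular with parameter `k` on `a` variables if, for `T + 2 * k ≤ w ≤ a - T - 2 * k`,
the truth of `F w` depends only on `w` modulo `period m k`. If `F (· + v)` is regular on the `a`
variables in `A` for all numbers `v` of ones outside `A`, then `F` is free on `A`. Otherwise, and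
if `K * k ≤ a`, it is rigid on `A`. If `F` is regular on all `n` variables, it is computed by a
symmetric circuit of depth at most `5` with at most `(n + k).choose k ^ K` gates.

More generally, let `φ` be a substitution of `t` new variables and constants for the `n` variables,
with every new variable at exactly `b` places and true at exactly `j` places, `K * k ≤ t`. If
`w ↦ F (b * w + j)` is not regular on the `t` new variables, then for every circuit with `s` gates
that computes `F`, at most `s * t! / t.choose k` permutations of the new variables come from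
symmetries of the circuit. If `F w` means `θ ≤ w`, then `w ↦ F (b * w + j)` is not regular on `t`
variables if the threshold for the new variables is between `t / 4` and `3 * t / 4` and
`K * (k ^ r + T) ≤ t`. -/
theorem result (m : ℕ) (hm : 2 ≤ m) : ∃ K : ℕ, ∀ n k T : ℕ, 1 ≤ n → 2 ≤ k → 1 ≤ T →
    (∀ A : Finset (Fin n), 1 ≤ A.card →
      (A.card ≤ k ^ m.primeFactors.card → ∀ F, Free m T k K F A) ∧
      (K * (k ^ m.primeFactors.card + T) ≤ A.card → Rigid m T k (fun w => n ≤ 2 * w) A)) ∧
    ∀ F : ℕ → Prop,
      (∀ A : Finset (Fin n), 1 ≤ A.card →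
        ((∀ v, v + A.card ≤ n → Regular m A.card k T fun w => F (w + v)) → Free m T k K F A) ∧
        ((∃ v, v + A.card ≤ n ∧ ¬ Regular m A.card k T fun w => F (w + v)) →
          K * k ≤ A.card → Rigid m T k F A)) ∧
      (Regular m n k T F → ∃ (G : Type) (_ : Fintype G) (C : Circuit n (Fin n) G) (g₀ : G),
        C.label = Sum.inl ∧ C.Modular m T ∧ (∀ g, C.level g < 5) ∧
        (∀ ρ, ∃ σ τ, C.IsAut ρ σ τ ∧ τ g₀ = g₀) ∧
        Fintype.card G ≤ (n + k).choose k ^ K ∧ C.Computes g₀ F) ∧
      (∀ (t b j : ℕ) (φ : Fin n → Fin t ⊕ Bool), Uniform φ b j →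
        ¬ Regular m t k T (fun w => F (b * w + j)) → K * k ≤ t →
        ∀ (ι G : Type) [Fintype ι] [Fintype G] (C : Circuit n ι G) (g₀ : G),
        C.Modular m T → C.Computes g₀ F →
        t.choose k * Nat.card {σ : Equiv.Perm (Fin t) // C.Lifts φ σ} ≤
          Fintype.card G * t.factorial) ∧
      ∀ θ, (∀ w, F w ↔ θ ≤ w) → ∀ t b j : ℕ, 1 ≤ b → b * t + 4 * j ≤ 4 * θ →
        4 * (θ + b) ≤ 3 * (b * t) + 4 * j + 4 → K * (k ^ m.primeFactors.card + T) ≤ t →
        ¬ Regular m t k T fun w => F (b * w + j) :=
  Pool.Agent.SymSub.Blk_A m hm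

end Pool.Agent.Results.MP_3586ff_lc.SymmetricCircuits
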